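import Mathlib

set_option autoImplicit false

namespace Pool.Agent.Results.MP_34afd1_lc.NotAuto

/-- The convolution of three words, `none` being the padding symbol. -/
def conv {A : Type} (u v w : List A) : List (Option A × Option A × Option A) :=
  (List.range (max (max u.length v.length) w.length)).map fun i => (u[i]?, v[i]?, w[i]?)

/-- The graph of the binary function `f`, read through the coding `e`, is an automatic relation. -/
def AutoFun {A D : Type} (e : D → List A) (f : D → D → D) : Prop :=
  Language.IsRegular {z | ∃ x y, z = conv (e x) (e y) (e (f x y))}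

section Aux

lemma dec {A : Type} (u : List A) (N : ℕ) (h : u.length ≤ N) :
    (List.range N).filterMap (fun i => u[i]?) = u := by
  induction u generalizing N with
  | nil => simp
  | cons a u ih =>
    obtain ⟨N, rfl⟩ := Nat.exists_eq_succ_of_ne_zero (show N ≠ 0 by simp at h; omega)
    rw [List.range_succ_eq_map, List.filterMap_cons_some (b := a) (by simp), List.filterMap_map]
    congr 1
    exact ih N (by simpa using h)

lemma grow {A D : Type} {e : D → List A} (he : Function.Injective e) {f : D → D → D}
    (h : AutoFun e f) : ∃ C, ∀ x y, (e (f x y)).length ≤ max (e x).length (e y).length + C := by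
  obtain ⟨σ, _, M, hM⟩ := h
  refine ⟨Fintype.card σ, fun x y => ?_⟩
  by_contra hc
  obtain ⟨m, hm⟩ : ∃ m, m = max (e x).length (e y).length := ⟨_, rfl⟩
  obtain ⟨z, hz⟩ : ∃ z, z = conv (e x) (e y) (e (f x y)) := ⟨_, rfl⟩
  have zl : z.length = (e (f x y)).length := by rw [hz, conv]; simp only [List.length_map, List.length_range]; omega
  have za : z ∈ M.accepts := by rw [hM]; exact ⟨x, y, hz⟩
  obtain ⟨q, a, b, c, e1, -, e2, e3, e4, e5⟩ := M.evalFrom_split (x := z.drop m)
    (s := M.eval (z.take m)) (by rw [List.length_drop]; omega) rfl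
  have : z.take m ++ (a ++ c) ∈ M.accepts := by
    rw [DFA.mem_accepts, DFA.eval, ← List.take_append_drop m z, M.evalFrom_of_append] at za
    rw [DFA.mem_accepts, DFA.eval, M.evalFrom_of_append, M.evalFrom_of_append]
    rw [DFA.eval] at e3 e5
    rwa [e3, e5]
  rw [hM] at this
  obtain ⟨x', y', k⟩ := this
  have nn : ∀ t ∈ a ++ c, t.1 = none ∧ t.2.1 = none := by
    intro t ht
    have : t ∈ z.drop m := by rw [e1]; simp only [List.mem_append] at ht ⊢; tauto
    rw [hz, conv, ← List.map_drop, List.mem_map] at this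
    obtain ⟨i, hi, rfl⟩ := this
    obtain ⟨j, hj, rfl⟩ := List.mem_drop_iff_getElem.1 hi
    simp only [List.getElem_range, List.getElem?_eq_none_iff]
    omega
  have tk : z.take m = (List.range m).map fun i => ((e x)[i]?, (e y)[i]?, (e (f x y))[i]?) := by
    rw [hz, conv, ← List.map_take, List.take_range, min_eq_left (by omega)]
  have k1 := congrArg (List.filterMap fun t => t.1) k
  have k2 := congrArg (List.filterMap fun t => t.2.1) k
  rw [List.filterMap_append, (List.filterMap_eq_nil_iff (l := a ++ c)).2 fun t ht => by simp [nn t ht], tk, conv,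
    List.filterMap_map, List.filterMap_map, List.append_nil] at k1 k2
  obtain rfl := he (((dec _ _ (by omega)).symm.trans k1).trans (dec _ _ (by omega)))
  obtain rfl := he (((dec _ _ (by omega)).symm.trans k2).trans (dec _ _ (by omega)))
  have l1 := congrArg List.length (k.trans hz.symm)
  have l2 := congrArg List.length e1
  have l3 := List.length_pos_iff.2 e2
  simp only [List.length_append, List.length_take, List.length_drop] at l1 l2
  omega

end Aux

/-- Under no injective coding of the positive integers by words over a finite alphabet are the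
graphs of `x + y` and of `x * 2 ^ y` both automatic. -/
theorem result (A : Type) [Finite A] (e : ℕ+ → List A) (he : Function.Injective e) :
    ¬ (AutoFun e (fun x y => x + y) ∧ AutoFun e fun x y => x * 2 ^ (y : ℕ)) := by
  rintro ⟨h1, h2⟩
  obtain ⟨C1, a1⟩ := grow he h1
  obtain ⟨C2, a2⟩ := grow he h2
  obtain ⟨C, c0, c1, c2⟩ : ∃ C, (e 1).length ≤ C ∧ C1 ≤ C ∧ C2 ≤ C :=
    ⟨(e 1).length + C1 + C2, by omega, by omega, by omega⟩
  have p2 : ∀ k, (e (2 ^ k)).length ≤ C * (k + 1) := by
    intro k
    induction k with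
    | zero => simpa using c0
    | succ k ih =>
      have := a1 (2 ^ k) (2 ^ k)
      rw [show (2 : ℕ+) ^ (k + 1) = 2 ^ k + 2 ^ k from PNat.eq (by simp [pow_succ, mul_two])]
      simp only [max_self] at this
      linarith
  have key : ∀ k, ∀ x : ℕ+, (x : ℕ) < 2 ^ 2 ^ k → (e x).length ≤ 2 * C * (k + 1) := by
    intro k
    induction k with
    | zero =>
      intro x hx
      rw [show x = 1 from PNat.eq (by have := x.pos; change x.val = 1; omega)]
      omega
    | succ k ih =>
      intro x hx
      have p : 0 < 2 ^ 2 ^ k := by positivity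
      by_cases h : (x : ℕ) < 2 ^ 2 ^ k
      · linarith [ih x h, Nat.zero_le C]
      have b := a2 ⟨x / 2 ^ 2 ^ k, Nat.div_pos (by omega) p⟩ (2 ^ k)
      have b1 := ih ⟨x / 2 ^ 2 ^ k, Nat.div_pos (by omega) p⟩ (by
        rwa [PNat.mk_coe, Nat.div_lt_iff_lt_mul p, ← pow_add, ← two_mul, ← pow_succ'])
      have b2 := b.trans (Nat.add_le_add (max_le b1 ((p2 k).trans (by nlinarith))) c2)
      have d := Nat.div_add_mod' x (2 ^ 2 ^ k)
      rcases Nat.eq_zero_or_pos (x % 2 ^ 2 ^ k) with r | r
      · rw [show x = ⟨x / 2 ^ 2 ^ k, Nat.div_pos (by omega) p⟩ * 2 ^ ((2 ^ k : ℕ+) : ℕ) from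
          PNat.eq (by simp; omega)]
        linarith [Nat.zero_le C]
      · have b3 := ih ⟨_, r⟩ (Nat.mod_lt _ p)
        have b4 := (a1 _ ⟨_, r⟩).trans (Nat.add_le_add (max_le b2 (b3.trans (Nat.le_add_right _ _))) c1)
        rw [show x = ⟨x / 2 ^ 2 ^ k, Nat.div_pos (by omega) p⟩ * 2 ^ ((2 ^ k : ℕ+) : ℕ) + ⟨_, r⟩ from
          PNat.eq (by simp; omega)]
        linarith
  have := Fintype.ofFinite A
  obtain ⟨D, hD⟩ : ∃ D, D = Fintype.card A * (2 * C) + 1 := ⟨_, rfl⟩
  have cnt := Fintype.card_le_of_injective (fun (i : Fin (2 ^ 2 ^ (4 * D) - 1))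
    (j : Fin (2 * C * (4 * D + 1))) => (e i.val.succPNat)[j]?) fun i i' h => by
      have l := key (4 * D) i.val.succPNat (by have := i.2; simp; omega)
      have l' := key (4 * D) i'.val.succPNat (by have := i'.2; simp; omega)
      refine Fin.ext (Nat.succPNat_injective (he (List.ext_getElem? fun j => ?_)))
      by_cases k : j < 2 * C * (4 * D + 1)
      · exact congrFun h ⟨j, k⟩
      · rw [List.getElem?_eq_none (by omega), List.getElem?_eq_none (by omega)]
  simp only [Fintype.card_fin, Fintype.card_pi, Fintype.card_option, Finset.prod_const,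
    Finset.card_univ] at cnt
  have b1 : (Fintype.card A + 1) ^ (2 * C * (4 * D + 1))
      ≤ 2 ^ (Fintype.card A * (2 * C * (4 * D + 1))) := by
    rw [pow_mul 2]; exact Nat.pow_le_pow_left Nat.lt_two_pow_self _
  have b2 : Fintype.card A * (2 * C * (4 * D + 1)) + 2 ≤ 2 ^ (4 * D) := by
    have : 2 * D < 2 ^ (2 * D) := Nat.lt_two_pow_self
    rw [show 4 * D = 2 * D + 2 * D by ring, pow_add, ← mul_assoc]
    nlinarith
  have b3 := Nat.pow_le_pow_right two_pos b2
  have b4 : 0 < 2 ^ (Fintype.card A * (2 * C * (4 * D + 1))) := by positivity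
  rw [pow_add] at b3
  omega

end Pool.Agent.Results.MP_34afd1_lc.NotAuto
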